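import Pool.Agent.Work.MP_3181e1_lc.G.Sys

open Pool.Agent.Lib.ZFModel Pool.Agent.Work.MP_63c7e0_lc Pool.Agent.Work.MP_3181e1_lc

/-- There is a model of ZFC containing a crowded Baire countable dense homogeneous subgroup `X`
of the Cantor group with `ℵ_ω ≤ |X| < 2 ^ ℵ₀`. -/
theorem Pool.Agent.Results.MP_3181e1_lc.ConSmallCDHGroup.result :
    ∃ (M : Type 1) (E : M → M → Prop), IsZFC E ∧
      ∃ X τ : M, IsTop E X τ ∧ IsCantorSubspace E X τ ∧ IsSymmSubgroup E X ∧ IsCrowded E X τ ∧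
        IsBaire E X τ ∧ IsCDH E X τ ∧ AlephOmegaLe E X ∧ LtContinuum E X := by
  obtain ⟨P, I, _, bit, add, lv, S⟩ := Grp.exists_gsys
  exact S.model
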